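import Pool.Agent.P8H77.FC.Up

/-! # Collapsing the gaps of a compact set of positive measure -/

set_option autoImplicit false
open MeasureTheory Set

namespace Pool.Agent.P8H77.FC

/-- `λ(K ∩ (-∞, t])` -/
noncomputable def phi (K : Set ℝ) (t : ℝ) : ℝ := volume.real (K ∩ Iic t)

section
variable {K : Set ℝ} (hK : IsCompact K)
include hK

theorem phi_sub {y x : ℝ} (h : y ≤ x) : phi K x - phi K y = volume.real (K ∩ Ioc y x) := by
  have h1 : K ∩ Iic x = (K ∩ Iic y) ∪ (K ∩ Ioc y x) := by
    rw [← inter_union_distrib_left, Iic_union_Ioc_eq_Iic h]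
  have hf : ∀ s : Set ℝ, volume (K ∩ s) ≠ ⊤ := fun s =>
    ne_top_of_le_ne_top hK.measure_lt_top.ne (measure_mono inter_subset_left)
  unfold phi
  rw [h1, measureReal_union _ (hK.measurableSet.inter measurableSet_Ioc) (hf _) (hf _)]
  · ring
  · refine Set.disjoint_left.2 fun z hz hz' => ?_
    exact absurd hz.2 (not_le.2 hz'.2.1)

theorem phi_mono {y x : ℝ} (h : y ≤ x) : phi K y ≤ phi K x := by
  have := phi_sub hK h
  have h2 : 0 ≤ volume.real (K ∩ Ioc y x) := measureReal_nonneg
  linarith

theorem gap_eq {y x : ℝ} (h : y ≤ x) :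
    (x - phi K x) - (y - phi K y) = volume.real (Ioc y x \ K) := by
  have h1 := phi_sub hK h
  have h2 : volume.real (Ioc y x) = x - y := by
    rw [Real.volume_real_Ioc_of_le h]
  have h3 := measureReal_inter_add_sdiff (μ := volume) (s := Ioc y x) hK.measurableSet
    (by simp)
  rw [inter_comm] at h3
  linarith

theorem gap_mono {y x : ℝ} (h : y ≤ x) : y - phi K y ≤ x - phi K x := by
  have := gap_eq hK h
  have h2 : 0 ≤ volume.real (Ioc y x \ K) := measureReal_nonneg
  linarith

theorem phi_lip {y x : ℝ} : |phi K x - phi K y| ≤ |x - y| := by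
  rcases le_total y x with h | h
  · have h1 := phi_mono hK h
    have h2 := gap_mono hK h
    rw [abs_of_nonneg (by linarith), abs_of_nonneg (by linarith)]
    linarith
  · have h1 := phi_mono hK h
    have h2 := gap_mono hK h
    rw [abs_of_nonpos (by linarith), abs_of_nonpos (by linarith)]
    linarith

theorem phi_cont : Continuous (phi K) := by
  have : LipschitzWith 1 (phi K) := LipschitzWith.of_dist_le_mul fun x y => by
    rw [Real.dist_eq, Real.dist_eq]
    simpa using phi_lip hK
  exact this.continuous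

omit hK in
theorem phi_nonneg (t : ℝ) : 0 ≤ phi K t := measureReal_nonneg

theorem phi_le (t : ℝ) : phi K t ≤ volume.real K :=
  measureReal_mono inter_subset_left hK.measure_lt_top.ne

theorem phi_surj (hne : K.Nonempty) {t : ℝ} (h0 : 0 ≤ t) (h1 : t ≤ volume.real K) :
    ∃ y ∈ K, phi K y = t := by
  have hbdd : BddBelow K := hK.bddBelow
  have hbdda : BddAbove K := hK.bddAbove
  have hinf : sInf K ∈ K := hK.sInf_mem hne
  have hsup : sSup K ∈ K := hK.sSup_mem hne
  have p0 : phi K (sInf K) = 0 := by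
    unfold phi
    have : K ∩ Iic (sInf K) ⊆ {sInf K} := by
      intro z hz
      exact le_antisymm hz.2 (csInf_le hbdd hz.1)
    have h2 : volume (K ∩ Iic (sInf K)) = 0 := measure_mono_null this (by simp)
    simp [measureReal_def, h2]
  have p1 : phi K (sSup K) = volume.real K := by
    unfold phi
    congr 1
    exact inter_eq_left.2 fun z hz => le_csSup hbdda hz
  rcases h0.eq_or_lt with h | h
  · exact ⟨sInf K, hinf, by rw [p0, h]⟩
  · obtain ⟨S, hS⟩ : ∃ S : Set ℝ, S = {z | t ≤ phi K z} := ⟨_, rfl⟩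
    have hSc : IsClosed S := by
      rw [hS]; exact isClosed_le continuous_const (phi_cont hK)
    have hSne : S.Nonempty := ⟨sSup K, by rw [hS]; show t ≤ phi K (sSup K); rw [p1]; exact h1⟩
    have hSb : BddBelow S := by
      refine ⟨sInf K, fun z hz => ?_⟩
      by_contra hlt
      push Not at hlt
      have h3 := phi_mono hK hlt.le
      rw [hS] at hz
      have h4 : t ≤ phi K z := hz
      linarith
    have hy : sInf S ∈ S := hSc.csInf_mem hSne hSb
    have hlt : ∀ z, z < sInf S → phi K z < t := by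
      intro z hz
      by_contra h2
      push Not at h2
      have : z ∈ S := by rw [hS]; exact h2
      exact absurd (csInf_le hSb this) (not_le.2 hz)
    have hy2 : t ≤ phi K (sInf S) := by
      have := hy; rw [hS] at this
      rw [hS]; exact this
    refine ⟨sInf S, ?_, le_antisymm ?_ hy2⟩
    · by_contra hnot
      have hopen : Kᶜ ∈ nhds (sInf S) := hK.isClosed.isOpen_compl.mem_nhds hnot
      obtain ⟨e, he, hball⟩ := Metric.mem_nhds_iff.1 hopen
      have h3 := phi_sub hK (show sInf S - e / 2 ≤ sInf S by linarith)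
      have h4 : K ∩ Ioc (sInf S - e / 2) (sInf S) = ∅ := by
        refine eq_empty_of_forall_notMem fun z hz => ?_
        have : z ∈ Metric.ball (sInf S) e := by
          rw [Metric.mem_ball, Real.dist_eq, abs_lt]
          constructor <;> [linarith [hz.2.1]; linarith [hz.2.2]]
        exact hball this hz.1
      rw [h4] at h3
      simp only [measureReal_empty] at h3
      have h5 := hlt (sInf S - e / 2) (by linarith)
      linarith
    · refine le_of_tendsto ((phi_cont hK).tendsto (sInf S) |>.mono_left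
        (nhdsWithin_le_nhds (s := Iio (sInf S)))) ?_
      filter_upwards [self_mem_nhdsWithin] with z hz
      exact (hlt z hz).le

/-- **Upper bound for the polarization.** -/
theorem upper (hpos : 0 < volume.real K) {s : ℝ} (hs : 1 < s) {N : ℕ} (hN : 0 < N)
    (x : Fin N → ℝ) :
    ∃ y ∈ K, (∀ i, y ≠ x i) ∧
      ∑ i, |y - x i| ^ (-s) ≤ 2 * ((volume.real K / N) ^ (-s) * Zs s) := by
  have hs0 : 0 < s := by linarith
  have hne : K.Nonempty := by
    rw [nonempty_iff_ne_empty]
    rintro rfl
    simp at hpos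
  have hN' : (0 : ℝ) < N := by exact_mod_cast hN
  obtain ⟨f, hf⟩ : ∃ f : Fin N → ℝ, f = fun i => phi K (x i) := ⟨_, rfl⟩
  obtain ⟨p, hp⟩ : ∃ p : ℕ → ℝ, p = fun j => if h : j < N then f (Tuple.sort f ⟨j, h⟩) else 0 :=
    ⟨_, rfl⟩
  have pj : ∀ j (h : j < N), p j = f (Tuple.sort f ⟨j, h⟩) := by
    intro j h
    rw [hp]; beta_reduce; rw [dif_pos h]
  have hpm : ∀ i j, i ≤ j → j < N → p i ≤ p j := by
    intro i j hij hj
    rw [pj i (by omega), pj j hj]
    exact Tuple.monotone_sort f (Fin.mk_le_mk.2 hij)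
  obtain ⟨k, hk, hne', hsum⟩ := upper_sorted hs N (volume.real K / N) (div_pos hpos hN') p hpm
  have hk0 : 0 ≤ (k : ℝ) * (volume.real K / N) := by positivity
  have hk1 : (k : ℝ) * (volume.real K / N) ≤ volume.real K := by
    have : (k : ℝ) ≤ N := by exact_mod_cast hk
    calc (k : ℝ) * (volume.real K / N) ≤ N * (volume.real K / N) :=
          mul_le_mul_of_nonneg_right this (by positivity)
      _ = volume.real K := by field_simp
  obtain ⟨y, hyK, hy⟩ := phi_surj hK hne hk0 hk1
  have hnei : ∀ i, phi K y ≠ phi K (x i) := by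
    intro i h
    obtain ⟨j, hj⟩ : ∃ j, Tuple.sort f j = i := (Tuple.sort f).surjective i
    have h2 := hne' j.1 j.2
    rw [pj j.1 j.2, hj, hf] at h2
    exact h2 (by rw [← hy, h])
  refine ⟨y, hyK, fun i h => hnei i (by rw [h]), ?_⟩
  have e1 : ∑ i, |y - x i| ^ (-s) ≤ ∑ i, |phi K y - f i| ^ (-s) := by
    refine Finset.sum_le_sum fun i _ => ?_
    rw [hf]
    exact anti hs0 (abs_pos.2 (sub_ne_zero.2 (hnei i))) (phi_lip hK)
  have e2 : ∑ i, |phi K y - f i| ^ (-s) =
      ∑ j ∈ Finset.range N, |(k : ℝ) * (volume.real K / N) - p j| ^ (-s) := by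
    rw [← Equiv.sum_comp (Tuple.sort f) (fun i => |phi K y - f i| ^ (-s)), Finset.sum_range]
    refine Finset.sum_congr rfl fun i _ => ?_
    rw [pj i.1 i.2, hy]
  rw [e2] at e1
  exact e1.trans hsum

end

end Pool.Agent.P8H77.FC
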