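import Pool.Agent.P8H77.FC.Low

/-! # The limit of the normalised polarization constants of a compact set of the line -/

set_option autoImplicit false
open MeasureTheory Set Filter Topology
open scoped ENNReal

namespace Pool.Agent.P8H77.FC

section
variable {K : Set ℝ} (hK : IsCompact K)
include hK

theorem gap_meas_tendsto :
    Tendsto (fun r => volume.real (Metric.cthickening r K \ K)) (𝓝 0) (𝓝 0) := by
  have h1 : Tendsto (fun r => volume (Metric.cthickening r K)) (𝓝 0) (𝓝 (volume K)) :=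
    tendsto_measure_cthickening_of_isCompact hK
  have h2 : Tendsto (fun r => (volume (Metric.cthickening r K)).toReal) (𝓝 0)
      (𝓝 (volume K).toReal) :=
    (ENNReal.tendsto_toReal hK.measure_lt_top.ne).comp h1
  have h3 : Tendsto (fun r => (volume (Metric.cthickening r K)).toReal - (volume K).toReal) (𝓝 0)
      (𝓝 0) := by
    have := h2.sub_const (volume K).toReal
    rwa [sub_self] at this
  refine h3.congr fun r => ?_
  have h4 : K ⊆ Metric.cthickening r K := Metric.self_subset_cthickening K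
  rw [measureReal_def, measure_sdiff h4 hK.measurableSet.nullMeasurableSet
    hK.measure_lt_top.ne, ENNReal.toReal_sub_of_le (measure_mono h4)
    (hK.cthickening).measure_lt_top.ne]

theorem lower (h01 : K ⊆ Icc (0 : ℝ) 1) (hpos : 0 < volume.real K) {s : ℝ} (hs : 1 < s) (m : ℕ)
    {w e θ : ℝ} (hw : 0 < w) (hw2 : w ≤ 1 / 2) (he : 0 < e) (he1 : e < 1) (hθ : 0 < θ) :
    ∀ᶠ N : ℕ in atTop, ∃ x : Fin N → ℝ, (∀ i, x i ∈ K) ∧ ∀ y ∈ K,
      ENNReal.ofReal (min (2 * ∑ i ∈ Finset.range m, ((i : ℝ) + 1 / 2 + w) ^ (-s) *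
        ((1 - e) / volume.real K) ^ s) (θ ^ (-s)) * (N : ℝ) ^ s) ≤
        ∑ j, (ENNReal.ofReal |y - x j|) ^ (-s) := by
  classical
  have hs0 : 0 < s := by linarith
  obtain ⟨L, hL⟩ : ∃ L, L = volume.real K := ⟨_, rfl⟩
  rw [← hL] at hpos ⊢
  have hne : K.Nonempty := by
    rw [nonempty_iff_ne_empty]
    rintro rfl
    simp [hL] at hpos
  obtain ⟨C, hC⟩ : ∃ C : ℝ, C = 2 * (m + 1) / (θ * w) + 2 / (w * L) := ⟨_, rfl⟩
  have hC0 : 0 < C := by rw [hC]; positivity
  obtain ⟨R, hR⟩ : ∃ R : ℕ → ℝ, R = fun N : ℕ => (m + 1) * L / ((1 - e) * (N : ℝ)) := ⟨_, rfl⟩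
  have hRt : Tendsto R atTop (𝓝 0) := by
    rw [hR]
    have h1 : Tendsto (fun N : ℕ => (1 - e) * (N : ℝ)) atTop atTop :=
      tendsto_natCast_atTop_atTop.const_mul_atTop (by linarith)
    exact tendsto_const_nhds.div_atTop h1
  have hτ : ∀ᶠ N : ℕ in atTop, C * volume.real (Metric.cthickening (R N) K \ K) < e / 2 := by
    have h1 := ((gap_meas_tendsto hK).comp hRt).const_mul C
    rw [mul_zero] at h1
    exact h1.eventually (gt_mem_nhds (by linarith))
  have hN1 : ∀ᶠ N : ℕ in atTop, 2 / e ≤ (N : ℝ) :=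
    tendsto_natCast_atTop_atTop.eventually_ge_atTop _
  filter_upwards [hτ, hN1, eventually_ge_atTop 1] with N hτN hN1 hN
  have hN' : (0 : ℝ) < N := by exact_mod_cast hN
  have heN : 2 ≤ e * N := by
    have := (div_le_iff₀ he).1 hN1
    linarith
  obtain ⟨b, hb⟩ : ∃ b, b = ⌊e * N⌋₊ := ⟨_, rfl⟩
  have hb1 : (b : ℝ) ≤ e * N := by rw [hb]; exact Nat.floor_le (by positivity)
  have hb2 : e * N < b + 1 := by rw [hb]; exact Nat.lt_floor_add_one _
  have hbN : b ≤ N := by
    have : (b : ℝ) ≤ N := by nlinarith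
    exact_mod_cast this
  obtain ⟨n, hn⟩ : ∃ n, n = N - b := ⟨_, rfl⟩
  have hnr : (n : ℝ) = N - b := by rw [hn, Nat.cast_sub hbN]
  have hn1 : (1 - e) * N ≤ n := by rw [hnr]; linarith
  have hn0 : (0 : ℝ) < n := lt_of_lt_of_le (by apply mul_pos <;> linarith) hn1
  have hnN : (n : ℝ) ≤ N := by rw [hnr]; have : (0 : ℝ) ≤ b := Nat.cast_nonneg b; linarith
  obtain ⟨a, ha⟩ : ∃ a, a = L / n := ⟨_, rfl⟩
  have ha0 : 0 < a := by rw [ha]; positivity
  have hLa : volume.real K = n * a := by rw [ha, ← hL]; field_simp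
  obtain ⟨h, hh⟩ : ∃ h, h = (m + 1) * a := ⟨_, rfl⟩
  have hh0 : 0 ≤ h := by rw [hh]; positivity
  have hhR : h ≤ R N := by
    rw [hh, hR, ha]
    beta_reduce
    rw [← mul_div_assoc]
    apply div_le_div_of_nonneg_left (by positivity) (by apply mul_pos <;> linarith) hn1
  obtain ⟨c, hc⟩ : ∃ c, c = θ / N := ⟨_, rfl⟩
  have hc0 : 0 < c := by rw [hc]; positivity
  obtain ⟨bad, hbad⟩ : ∃ bad : ℝ → Prop, bad = fun y => w * a <
      (y + h - phi K (y + h)) - (y - h - phi K (y - h)) := ⟨_, rfl⟩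
  obtain ⟨S, hS⟩ : ∃ S : Finset ℕ, S = (Finset.range (⌊1 / c⌋₊ + 1)).filter
      (fun k : ℕ => ∃ z ∈ K, (k : ℝ) * c ≤ z ∧ z < (k + 1) * c ∧ bad z) := ⟨_, rfl⟩
  have hz0 : ∀ k : ℕ, ∃ z : ℝ, z ∈ K ∧ (k ∈ S → (k : ℝ) * c ≤ z ∧ z < (k + 1) * c ∧ bad z) := by
    intro k
    by_cases hk : k ∈ S
    · have hk' := hk
      rw [hS, Finset.mem_filter] at hk'
      obtain ⟨_, z, hz1, hz2⟩ := hk'
      exact ⟨z, hz1, fun _ => hz2⟩
    · exact ⟨hne.some, hne.some_mem, fun h => absurd h hk⟩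
  choose z hzK hz using hz0
  have hcount : S.card ≤ b := by
    have h1 := count_bad hK hh0 hc0 hhR S z (v := w * a) (fun k hk => by
      have := hz k hk
      rw [hbad] at this
      exact ⟨hzK k, this.1, this.2.1, this.2.2.le⟩)
    obtain ⟨τ, hτ⟩ : ∃ τ, τ = volume.real (Metric.cthickening (R N) K \ K) := ⟨_, rfl⟩
    rw [← hτ] at h1 hτN
    have hτ0 : 0 ≤ τ := by rw [hτ]; exact measureReal_nonneg
    have hwa : 0 < w * a := by positivity
    have h2 : (S.card : ℝ) ≤ (2 * h / c + 2) * τ / (w * a) := by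
      rw [le_div_iff₀ hwa]; exact h1
    have h3 : (2 * h / c + 2) / (w * a) ≤ C * N := by
      have e1 : (2 * h / c + 2) / (w * a) = 2 * (m + 1) / (θ * w) * N + 2 / (w * L) * n := by
        rw [hh, hc, ha]
        field_simp
      rw [e1, hC, add_mul]
      have : 2 / (w * L) * n ≤ 2 / (w * L) * N := mul_le_mul_of_nonneg_left hnN (by positivity)
      linarith
    have h4 : (2 * h / c + 2) * τ / (w * a) ≤ C * N * τ := by
      have : (2 * h / c + 2) * τ / (w * a) = (2 * h / c + 2) / (w * a) * τ := by ring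
      rw [this]
      exact mul_le_mul_of_nonneg_right h3 hτ0
    have h5 : (S.card : ℝ) ≤ e / 2 * N := by nlinarith
    have h6 : (S.card : ℝ) < b + 1 := by nlinarith
    have h7 : S.card < b + 1 := by exact_mod_cast h6
    omega
  have hX0 : ∀ j : ℕ, ∃ y : ℝ, y ∈ K ∧ (j < n → phi K y = ((j : ℝ) + 1 / 2) * a) := by
    intro j
    by_cases hj : j < n
    · have hj' : (j : ℝ) + 1 ≤ n := by exact_mod_cast hj
      obtain ⟨y, hy1, hy2⟩ := phi_surj hK hne (t := ((j : ℝ) + 1 / 2) * a) (by positivity) (by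
        rw [hLa]
        exact mul_le_mul_of_nonneg_right (by linarith) ha0.le)
      exact ⟨y, hy1, fun _ => hy2⟩
    · exact ⟨hne.some, hne.some_mem, fun h => absurd h hj⟩
  choose X hXK hX using hX0
  obtain ⟨x, hx⟩ : ∃ x : ℕ → ℝ, x = fun i => if i < n then X i else
      if h : i - n < S.card then z (S.equivFin.symm ⟨i - n, h⟩) else X 0 := ⟨_, rfl⟩
  have hxK : ∀ i, x i ∈ K := by
    intro i
    rw [hx]
    beta_reduce
    split_ifs
    · exact hXK _
    · exact hzK _
    · exact hXK _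
  refine ⟨fun i => x i, fun i => hxK i, fun y hy => ?_⟩
  have hsumr : ∑ j : Fin N, (ENNReal.ofReal |y - x j|) ^ (-s) =
      ∑ j ∈ Finset.range N, (ENNReal.ofReal |y - x j|) ^ (-s) := by
    rw [Finset.sum_range]
  rw [hsumr]
  by_cases hby : bad y
  · -- bad points
    have hyc : 0 ≤ y / c := div_nonneg (h01 hy).1 hc0.le
    obtain ⟨k, hk⟩ : ∃ k, k = ⌊y / c⌋₊ := ⟨_, rfl⟩
    have k1 : (k : ℝ) * c ≤ y := by
      rw [← le_div_iff₀ hc0, hk]; exact Nat.floor_le hyc
    have k2 : y < (k + 1) * c := by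
      rw [← div_lt_iff₀ hc0, hk]; exact Nat.lt_floor_add_one _
    have hkS : k ∈ S := by
      rw [hS, Finset.mem_filter, Finset.mem_range]
      refine ⟨?_, y, hy, k1, k2, hby⟩
      have : k ≤ ⌊1 / c⌋₊ := by
        rw [hk]
        exact Nat.floor_le_floor (div_le_div_of_nonneg_right (h01 hy).2 hc0.le)
      omega
    obtain ⟨i, hi⟩ : ∃ i : Fin S.card, i = S.equivFin ⟨k, hkS⟩ := ⟨_, rfl⟩
    have hiN : n + i.1 < N := by
      have := i.2
      omega
    have hxi : x (n + i.1) = z k := by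
      rw [hx]
      beta_reduce
      rw [if_neg (by omega)]
      have e1 : n + i.1 - n = i.1 := by omega
      have h2 : n + i.1 - n < S.card := by rw [e1]; exact i.2
      rw [dif_pos h2]
      have e2 : (⟨n + i.1 - n, h2⟩ : Fin S.card) = i := Fin.ext e1
      rw [e2, hi, Equiv.symm_apply_apply]
    have hle : (ENNReal.ofReal |y - x (n + i.1)|) ^ (-s) ≤
        ∑ j ∈ Finset.range N, (ENNReal.ofReal |y - x j|) ^ (-s) :=
      Finset.single_le_sum (f := fun j => (ENNReal.ofReal |y - x j|) ^ (-s))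
        (fun _ _ => bot_le) (Finset.mem_range.2 hiN)
    refine le_trans ?_ hle
    rw [hxi]
    have hz' := hz k hkS
    have habs : |y - z k| ≤ c := by
      rw [abs_le]
      have z1 := hz'.1
      have z2 := hz'.2.1
      have z3 : ((k : ℝ) + 1) * c = k * c + c := by ring
      rw [z3] at z2 k2
      constructor <;> linarith
    refine le_trans ?_ (term_ge hs0 hc0 habs)
    apply ENNReal.ofReal_le_ofReal
    have e3 : c ^ (-s) = θ ^ (-s) * (N : ℝ) ^ s := by
      rw [hc, Real.div_rpow hθ.le hN'.le, Real.rpow_neg hN'.le, div_inv_eq_mul]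
    rw [e3]
    exact mul_le_mul_of_nonneg_right (min_le_right _ _) (Real.rpow_nonneg hN'.le _)
  · -- good points
    have hgood : (y + (m + 1) * a - phi K (y + (m + 1) * a)) -
      (y - (m + 1) * a - phi K (y - (m + 1) * a)) ≤ w * a := by
      rw [hbad] at hby
      beta_reduce at hby
      rw [← hh]
      exact not_lt.1 hby
    have hg := good_sum hK hs0 ha0 hLa X hX m hw hw2 y hgood
    have h5 : ∑ j ∈ Finset.range n, (ENNReal.ofReal |y - X j|) ^ (-s) ≤
        ∑ j ∈ Finset.range N, (ENNReal.ofReal |y - x j|) ^ (-s) := by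
      have e1 : ∑ j ∈ Finset.range n, (ENNReal.ofReal |y - X j|) ^ (-s) =
          ∑ j ∈ Finset.range n, (ENNReal.ofReal |y - x j|) ^ (-s) := by
        refine Finset.sum_congr rfl fun j hj => ?_
        rw [Finset.mem_range] at hj
        rw [hx]
        beta_reduce
        rw [if_pos hj]
      rw [e1]
      refine Finset.sum_le_sum_of_subset fun j hj => ?_
      rw [Finset.mem_range] at hj ⊢
      omega
    refine le_trans ?_ (hg.trans h5)
    apply ENNReal.ofReal_le_ofReal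
    have e2 : a ^ (-s) = (n / L) ^ s := by
      rw [ha, Real.rpow_neg (by positivity), ← Real.inv_rpow (by positivity), inv_div]
    have e3 : ((1 - e) / L) ^ s * (N : ℝ) ^ s ≤ a ^ (-s) := by
      rw [e2, ← Real.mul_rpow (div_nonneg (by linarith) hpos.le) hN'.le]
      apply Real.rpow_le_rpow (mul_nonneg (div_nonneg (by linarith) hpos.le) hN'.le) _ hs0.le
      rw [div_mul_eq_mul_div]
      exact div_le_div_of_nonneg_right hn1 hpos.le
    have e4 : 2 * ∑ i ∈ Finset.range m, (((i : ℝ) + 1 / 2 + w) * a) ^ (-s) =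
        2 * ∑ i ∈ Finset.range m, ((i : ℝ) + 1 / 2 + w) ^ (-s) * a ^ (-s) := by
      congr 1
      refine Finset.sum_congr rfl fun i _ => ?_
      rw [Real.mul_rpow (by positivity) ha0.le]
    rw [e4]
    calc min (2 * ∑ i ∈ Finset.range m, ((i : ℝ) + 1 / 2 + w) ^ (-s) * ((1 - e) / L) ^ s)
          (θ ^ (-s)) * (N : ℝ) ^ s
        ≤ (2 * ∑ i ∈ Finset.range m, ((i : ℝ) + 1 / 2 + w) ^ (-s) * ((1 - e) / L) ^ s) *
          (N : ℝ) ^ s := mul_le_mul_of_nonneg_right (min_le_left _ _) (Real.rpow_nonneg hN'.le _)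
      _ = 2 * ∑ i ∈ Finset.range m, ((i : ℝ) + 1 / 2 + w) ^ (-s) *
          (((1 - e) / L) ^ s * (N : ℝ) ^ s) := by
        rw [mul_assoc, Finset.sum_mul]
        congr 1
        refine Finset.sum_congr rfl fun i _ => ?_
        ring
      _ ≤ _ := by
        apply mul_le_mul_of_nonneg_left _ (by norm_num)
        refine Finset.sum_le_sum fun i _ => ?_
        exact mul_le_mul_of_nonneg_left e3 (Real.rpow_nonneg (by positivity) _)

end

end Pool.Agent.P8H77.FC
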