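import Pool.Agent.P8H77.FC.Coll

/-! # Lower bound: equally spaced points and a few more points -/

set_option autoImplicit false
open MeasureTheory Set
open scoped ENNReal

namespace Pool.Agent.P8H77.FC

section
variable {K : Set ℝ} (hK : IsCompact K)
include hK

/-- the total length of the gaps of `K` in `(y - h, y + h]` -/
theorem near {y x h w : ℝ} (hh : 0 ≤ h)
    (hgood : (y + h - phi K (y + h)) - (y - h - phi K (y - h)) ≤ w)
    (hlt : |phi K y - phi K x| < h - w) : |y - x| ≤ |phi K y - phi K x| + w := by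
  have g1 := gap_mono hK (show y - h ≤ y by linarith)
  have g2 := gap_mono hK (show y ≤ y + h by linarith)
  rcases le_total y x with hyx | hyx
  · have p1 := phi_mono hK hyx
    rw [abs_of_nonpos (by linarith)] at hlt ⊢
    rw [abs_of_nonpos (by linarith)]
    have hx : x ≤ y + h := by
      by_contra hcon
      push Not at hcon
      have := phi_mono hK hcon.le
      linarith
    have g3 := gap_mono hK hx
    linarith
  · have p1 := phi_mono hK hyx
    rw [abs_of_nonneg (by linarith)] at hlt ⊢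
    rw [abs_of_nonneg (by linarith)]
    have hx : y - h ≤ x := by
      by_contra hcon
      push Not at hcon
      have := phi_mono hK hcon.le
      linarith
    have g3 := gap_mono hK hx
    linarith

omit hK in
theorem term_ge {s d e : ℝ} (hs : 0 < s) (he : 0 < e) (hde : d ≤ e) :
    ENNReal.ofReal (e ^ (-s)) ≤ (ENNReal.ofReal d) ^ (-s) := by
  rw [← ENNReal.ofReal_rpow_of_pos he]
  rw [ENNReal.rpow_neg, ENNReal.rpow_neg]
  apply ENNReal.inv_le_inv.2
  exact ENNReal.rpow_le_rpow (ENNReal.ofReal_le_ofReal hde) hs.le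

theorem good_sum {s : ℝ} (hs : 0 < s) {n : ℕ} {a : ℝ} (ha : 0 < a)
    (hL : volume.real K = n * a) (X : ℕ → ℝ)
    (hX : ∀ j, j < n → phi K (X j) = ((j : ℝ) + 1 / 2) * a) (m : ℕ) {w : ℝ} (hw : 0 < w)
    (hw2 : w ≤ 1 / 2) (y : ℝ)
    (hgood : (y + (m + 1) * a - phi K (y + (m + 1) * a)) -
      (y - (m + 1) * a - phi K (y - (m + 1) * a)) ≤ w * a) :
    ENNReal.ofReal (2 * ∑ i ∈ Finset.range m, (((i : ℝ) + 1 / 2 + w) * a) ^ (-s)) ≤
      ∑ j ∈ Finset.range n, (ENNReal.ofReal |y - X j|) ^ (-s) := by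
  obtain ⟨h, hh⟩ : ∃ h : ℝ, h = (m + 1) * a := ⟨_, rfl⟩
  rw [← hh] at hgood
  have hh0 : 0 ≤ h := by rw [hh]; positivity
  have g1 := gap_mono hK (show y - h ≤ y by linarith)
  have g2 := gap_mono hK (show y ≤ y + h by linarith)
  have f1 : 0 ≤ phi K (y - h) := phi_nonneg _
  have f2 := phi_le hK (y + h)
  have t1 : (m + 1 - w) * a ≤ phi K y := by
    have : (m + 1 - w) * a = h - w * a := by rw [hh]; ring
    linarith
  have t2 : phi K y ≤ (n - (m + 1) + w) * a := by
    have : (n - (m + 1) + w) * a = volume.real K - h + w * a := by rw [hh, hL]; ring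
    linarith
  obtain ⟨t, ht⟩ : ∃ t, t = phi K y := ⟨_, rfl⟩
  rw [← ht] at t1 t2
  have tp : 0 ≤ t / a + 1 / 2 := by
    have : 0 ≤ t := by rw [ht]; exact phi_nonneg _
    positivity
  obtain ⟨q, hq⟩ : ∃ q : ℕ, q = ⌊t / a + 1 / 2⌋₊ := ⟨_, rfl⟩
  have q1 : (q : ℝ) ≤ t / a + 1 / 2 := by rw [hq]; exact Nat.floor_le tp
  have q2 : t / a + 1 / 2 < q + 1 := by rw [hq]; exact Nat.lt_floor_add_one _
  have q1' : ((q : ℝ) - 1 / 2) * a ≤ t := by
    have h3 : (q : ℝ) - 1 / 2 ≤ t / a := by linarith
    calc ((q : ℝ) - 1 / 2) * a ≤ t / a * a := mul_le_mul_of_nonneg_right h3 ha.le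
      _ = t := by field_simp
  have q2' : t < ((q : ℝ) + 1 / 2) * a := by
    have h3 : t / a < (q : ℝ) + 1 / 2 := by linarith
    calc t = t / a * a := by field_simp
      _ < ((q : ℝ) + 1 / 2) * a := mul_lt_mul_of_pos_right h3 ha
  have hmq : m + 1 ≤ q := by
    have h3 : (m + 1 - w) * a < ((q : ℝ) + 1 / 2) * a := lt_of_le_of_lt t1 q2'
    have h4 : (m + 1 - w : ℝ) < (q : ℝ) + 1 / 2 := lt_of_mul_lt_mul_right h3 ha.le
    have h5 : (m : ℝ) < q := by linarith
    have h6 : m < q := by exact_mod_cast h5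
    omega
  have hqn : q + m ≤ n := by
    have h3 : ((q : ℝ) - 1 / 2) * a ≤ (n - (m + 1) + w) * a := q1'.trans t2
    have h4 : ((q : ℝ) - 1 / 2) ≤ (n - (m + 1) + w : ℝ) := le_of_mul_le_mul_right h3 ha
    have h5 : (q : ℝ) + m ≤ n := by linarith
    exact_mod_cast h5
  obtain ⟨F, hF⟩ : ∃ F : ℕ → ℝ≥0∞, F = fun j => (ENNReal.ofReal |y - X j|) ^ (-s) := ⟨_, rfl⟩
  have hterm : ∀ j, j < n → ∀ i : ℕ, i < m → |t - ((j : ℝ) + 1 / 2) * a| ≤ (i + 1) * a →
      ENNReal.ofReal ((|t - ((j : ℝ) + 1 / 2) * a| + w * a) ^ (-s)) ≤ F j := by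
    intro j hj i hi hle
    rw [hF]
    have e1 : |phi K y - phi K (X j)| = |t - ((j : ℝ) + 1 / 2) * a| := by rw [hX j hj, ht]
    have him : (i : ℝ) + 1 ≤ m := by exact_mod_cast hi
    have h3 : |phi K y - phi K (X j)| < h - w * a := by
      rw [e1, hh]
      have h4 : ((i : ℝ) + 1) * a ≤ m * a := mul_le_mul_of_nonneg_right him ha.le
      nlinarith
    have h4 := near hK hh0 hgood h3
    rw [e1] at h4
    refine term_ge hs ?_ h4
    positivity
  have hsub : Finset.Ico (q - m) (q + m) ⊆ Finset.range n := by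
    intro j hj
    rw [Finset.mem_Ico] at hj
    rw [Finset.mem_range]
    omega
  have hsum : ∑ j ∈ Finset.Ico (q - m) (q + m), F j =
      ∑ i ∈ Finset.range m, (F (q - 1 - i) + F (q + i)) := by
    rw [← Finset.sum_Ico_consecutive _ (show q - m ≤ q by omega) (show q ≤ q + m by omega),
      Finset.sum_add_distrib]
    congr 1
    · rw [Finset.sum_Ico_eq_sum_range, show q - (q - m) = m by omega, ← Finset.sum_range_reflect]
      refine Finset.sum_congr rfl fun i hi => ?_
      rw [Finset.mem_range] at hi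
      congr 1
      omega
    · rw [Finset.sum_Ico_eq_sum_range, show q + m - q = m by omega]
  have hmain : ENNReal.ofReal (2 * ∑ i ∈ Finset.range m, (((i : ℝ) + 1 / 2 + w) * a) ^ (-s)) ≤
      ∑ i ∈ Finset.range m, (F (q - 1 - i) + F (q + i)) := by
    rw [Finset.mul_sum, ENNReal.ofReal_sum_of_nonneg]
    · refine Finset.sum_le_sum fun i hi => ?_
      rw [Finset.mem_range] at hi
      have c1 : ((q - 1 - i : ℕ) : ℝ) = (q : ℝ) - 1 - i := by
        rw [Nat.sub_sub, Nat.cast_sub (by omega)]; push_cast; ring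
      have a1 : |t - (((q - 1 - i : ℕ) : ℝ) + 1 / 2) * a| = t - ((q : ℝ) - 1 - i + 1 / 2) * a := by
        rw [c1]
        apply abs_of_nonneg
        have : (0 : ℝ) ≤ i * a := by positivity
        nlinarith
      have a2 : |t - (((q + i : ℕ) : ℝ) + 1 / 2) * a| = ((q : ℝ) + i + 1 / 2) * a - t := by
        rw [abs_of_nonpos]
        · push_cast; ring
        · push_cast
          have : (0 : ℝ) ≤ i * a := by positivity
          nlinarith
      have b1 := hterm (q - 1 - i) (by omega) i hi (by rw [a1]; nlinarith)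
      have b2 := hterm (q + i) (by omega) i hi (by rw [a2]; nlinarith)
      rw [a1] at b1
      rw [a2] at b2
      refine le_trans ?_ (add_le_add b1 b2)
      have p1 : 0 < t - ((q : ℝ) - 1 - i + 1 / 2) * a + w * a := by
        have : (0 : ℝ) ≤ i * a := by positivity
        have : 0 < w * a := by positivity
        nlinarith
      have p2 : 0 < ((q : ℝ) + i + 1 / 2) * a - t + w * a := by
        have : (0 : ℝ) ≤ i * a := by positivity
        have : 0 < w * a := by positivity
        nlinarith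
      rw [← ENNReal.ofReal_add (Real.rpow_nonneg p1.le _) (Real.rpow_nonneg p2.le _)]
      apply ENNReal.ofReal_le_ofReal
      have h5 := midconv hs p1 p2
      have h6 : (t - ((q : ℝ) - 1 - i + 1 / 2) * a + w * a + (((q : ℝ) + i + 1 / 2) * a - t + w * a)) / 2
          = ((i : ℝ) + 1 / 2 + w) * a := by ring
      rw [h6] at h5
      exact h5
    · intro i _
      have : 0 ≤ (((i : ℝ) + 1 / 2 + w) * a) ^ (-s) := Real.rpow_nonneg (by positivity) _
      linarith
  calc _ ≤ ∑ i ∈ Finset.range m, (F (q - 1 - i) + F (q + i)) := hmain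
    _ = ∑ j ∈ Finset.Ico (q - m) (q + m), F j := hsum.symm
    _ ≤ ∑ j ∈ Finset.range n, F j := Finset.sum_le_sum_of_subset hsub
    _ = _ := by rw [hF]

omit hK in
/-- a finite set of natural numbers with small diameter has few elements -/
theorem card_le_of_diam (F : Finset ℕ) (D : ℝ) (hD : 0 ≤ D)
    (h : ∀ k ∈ F, ∀ k' ∈ F, (k : ℝ) - k' ≤ D) : (F.card : ℝ) ≤ D + 1 := by
  rcases F.eq_empty_or_nonempty with rfl | hne
  · simp; linarith
  · have h1 : F ⊆ Finset.Icc (F.min' hne) (F.max' hne) := by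
      intro k hk
      rw [Finset.mem_Icc]
      exact ⟨F.min'_le k hk, F.le_max' k hk⟩
    have h2 := Finset.card_le_card h1
    rw [Nat.card_Icc] at h2
    have h3 := h _ (F.max'_mem hne) _ (F.min'_mem hne)
    have h4 : F.min' hne ≤ F.max' hne := F.min'_le _ (F.max'_mem hne)
    have h5 : (F.card : ℝ) ≤ ((F.max' hne + 1 - F.min' hne : ℕ) : ℝ) := by exact_mod_cast h2
    rw [Nat.cast_sub (by omega)] at h5
    push_cast at h5
    linarith

/-- **Few cells contain bad points.** -/
theorem count_bad {h c v r : ℝ} (hh : 0 ≤ h) (hc : 0 < c) (hr : h ≤ r) (S : Finset ℕ)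
    (z : ℕ → ℝ) (hz : ∀ k ∈ S, z k ∈ K ∧ (k : ℝ) * c ≤ z k ∧ z k < (k + 1) * c ∧
      v ≤ (z k + h - phi K (z k + h)) - (z k - h - phi K (z k - h))) :
    S.card * v ≤ (2 * h / c + 2) * volume.real (Metric.cthickening r K \ K) := by
  classical
  obtain ⟨A, hA⟩ : ∃ A : ℕ → Set ℝ, A = fun k => Ioc (z k - h) (z k + h) \ K := ⟨_, rfl⟩
  obtain ⟨T, hT⟩ : ∃ T : Set ℝ, T = Metric.cthickening r K \ K := ⟨_, rfl⟩
  have hAm : ∀ k, MeasurableSet (A k) := fun k => by
    rw [hA]; exact measurableSet_Ioc.diff hK.measurableSet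
  have hTm : MeasurableSet T := by
    rw [hT]; exact Metric.isClosed_cthickening.measurableSet.diff hK.measurableSet
  have hTf : volume T ≠ ⊤ := by
    rw [hT]
    refine ne_top_of_le_ne_top ?_ (measure_mono sdiff_subset)
    exact (hK.cthickening).measure_lt_top.ne
  have hAT : ∀ k ∈ S, A k ⊆ T := by
    intro k hk t ht
    rw [hA] at ht
    rw [hT]
    refine ⟨?_, ht.2⟩
    refine Metric.mem_cthickening_of_dist_le t (z k) r K (hz k hk).1 ?_
    rw [Real.dist_eq, abs_le]
    constructor <;> [linarith [ht.1.1]; linarith [ht.1.2]]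
  have hvA : ∀ k ∈ S, v ≤ volume.real (A k) := by
    intro k hk
    have h1 := gap_eq hK (show z k - h ≤ z k + h by linarith)
    rw [hA]
    beta_reduce
    rw [← h1]
    exact (hz k hk).2.2.2
  have hcard : ∀ t, ∑ k ∈ S, (A k).indicator (fun _ => (1 : ℝ≥0∞)) t ≤
      T.indicator (fun _ => ENNReal.ofReal (2 * h / c + 2)) t := by
    intro t
    by_cases htT : t ∈ T
    · rw [indicator_of_mem htT]
      have h1 : ∑ k ∈ S, (A k).indicator (fun _ => (1 : ℝ≥0∞)) t =
          (((S.filter fun k => t ∈ A k).card : ℕ) : ℝ≥0∞) := by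
        rw [Finset.card_filter]
        push_cast
        refine Finset.sum_congr rfl fun k _ => ?_
        rw [indicator_apply]
      rw [h1]
      have h2 := card_le_of_diam (S.filter fun k => t ∈ A k) (2 * h / c + 1) (by positivity)
        (fun k hk k' hk' => by
          rw [Finset.mem_filter] at hk hk'
          have a1 := (hz k hk.1).2.1
          have a2 := (hz k' hk'.1).2.2.1
          have a3 := hk.2
          have a4 := hk'.2
          rw [hA] at a3 a4
          have a5 := a3.1.1
          have a6 := a4.1.2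
          have a7 : ((k : ℝ) - k' - 1) * c ≤ 2 * h := by nlinarith
          have a8 : ((k : ℝ) - k' - 1) ≤ 2 * h / c := by rw [le_div_iff₀ hc]; exact a7
          linarith)
      rw [← ENNReal.ofReal_natCast]
      apply ENNReal.ofReal_le_ofReal
      linarith
    · rw [indicator_of_notMem htT]
      refine le_of_eq (Finset.sum_eq_zero fun k hk => ?_)
      rw [indicator_of_notMem fun h => htT (hAT k hk h)]
  have hint : ∑ k ∈ S, volume (A k) ≤ ENNReal.ofReal (2 * h / c + 2) * volume T := by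
    calc ∑ k ∈ S, volume (A k) = ∑ k ∈ S, ∫⁻ t, (A k).indicator (fun _ => (1 : ℝ≥0∞)) t := by
          refine Finset.sum_congr rfl fun k _ => ?_
          rw [lintegral_indicator (hAm k)]
          simp
      _ = ∫⁻ t, ∑ k ∈ S, (A k).indicator (fun _ => (1 : ℝ≥0∞)) t := by
          rw [lintegral_finsetSum]
          intro k _
          exact measurable_const.indicator (hAm k)
      _ ≤ ∫⁻ t, T.indicator (fun _ => ENNReal.ofReal (2 * h / c + 2)) t := lintegral_mono hcard
      _ = _ := by rw [lintegral_indicator hTm]; simp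
  have hsumr : ∑ k ∈ S, volume.real (A k) ≤ (2 * h / c + 2) * volume.real T := by
    have h1 : ∑ k ∈ S, volume.real (A k) = (∑ k ∈ S, volume (A k)).toReal := by
      rw [ENNReal.toReal_sum]
      · rfl
      · intro k hk
        exact ne_top_of_le_ne_top hTf (measure_mono (hAT k hk))
    rw [h1]
    have h2 : (2 * h / c + 2) * volume.real T =
        (ENNReal.ofReal (2 * h / c + 2) * volume T).toReal := by
      rw [ENNReal.toReal_mul, ENNReal.toReal_ofReal (by positivity)]
      rfl
    rw [h2]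
    exact ENNReal.toReal_mono (ENNReal.mul_ne_top ENNReal.ofReal_ne_top hTf) hint
  rw [← hT]
  refine le_trans ?_ hsumr
  rw [← nsmul_eq_mul, ← Finset.sum_const]
  exact Finset.sum_le_sum hvA

end

end Pool.Agent.P8H77.FC
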