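import Pool.Agent.P8H77.FC.Lim

/-! # The limit of the normalised polarization constants of a compact set of the line -/

set_option autoImplicit false
open MeasureTheory Set Filter Topology
open scoped ENNReal

namespace Pool.Agent.P8H77.FC

section
variable {K : Set ℝ} (hK : IsCompact K)
include hK

theorem pol_le (hpos : 0 < volume.real K) {s : ℝ} (hs : 1 < s) {N : ℕ} (hN : 0 < N) :
    (⨆ (x : Fin N → ℝ) (_ : ∀ i, x i ∈ K), ⨅ y ∈ K, ∑ j, (ENNReal.ofReal |y - x j|) ^ (-s)) ≤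
      ENNReal.ofReal (2 * Zs s * (volume.real K) ^ (-s) * (N : ℝ) ^ s) := by
  refine iSup₂_le fun x _ => ?_
  obtain ⟨y, hy, hne, hle⟩ := upper hK hpos hs hN x
  refine (iInf₂_le y hy).trans ?_
  have h1 : ∑ j, (ENNReal.ofReal |y - x j|) ^ (-s) =
      ENNReal.ofReal (∑ j, |y - x j| ^ (-s)) := by
    rw [ENNReal.ofReal_sum_of_nonneg fun i _ => Real.rpow_nonneg (abs_nonneg _) _]
    refine Finset.sum_congr rfl fun j _ => ?_
    rw [ENNReal.ofReal_rpow_of_pos (abs_pos.2 (sub_ne_zero.2 (hne j)))]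
  rw [h1]
  apply ENNReal.ofReal_le_ofReal
  refine hle.trans (le_of_eq ?_)
  have hN' : (0 : ℝ) < N := by exact_mod_cast hN
  rw [Real.div_rpow hpos.le hN'.le, Real.rpow_neg hN'.le, div_inv_eq_mul]
  ring

theorem exists_par (hpos : 0 < volume.real K) {s : ℝ} (hs : 1 < s) {b : ℝ}
    (hb : b < 2 * Zs s * (volume.real K) ^ (-s)) :
    ∃ (m : ℕ) (e : ℝ), 0 < e ∧ e ≤ 1 / 2 ∧
      b < 2 * ∑ i ∈ Finset.range m, ((i : ℝ) + 1 / 2 + e) ^ (-s) *
        ((1 - e) / volume.real K) ^ s := by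
  have hs0 : 0 < s := by linarith
  have h1 : Tendsto (fun m : ℕ => 2 * (∑ i ∈ Finset.range m, ((i : ℝ) + 1 / 2) ^ (-s)) *
      (volume.real K) ^ (-s)) atTop (𝓝 (2 * Zs s * (volume.real K) ^ (-s))) :=
    ((summable_Zs hs).hasSum.tendsto_sum_nat.const_mul 2).mul_const _
  obtain ⟨m, hm⟩ := (h1.eventually (lt_mem_nhds hb)).exists
  have h2 : Tendsto (fun e : ℝ => 2 * ∑ i ∈ Finset.range m, ((i : ℝ) + 1 / 2 + e) ^ (-s) *
      ((1 - e) / volume.real K) ^ s) (𝓝 0) (𝓝 (2 * ∑ i ∈ Finset.range m,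
        ((i : ℝ) + 1 / 2 + 0) ^ (-s) * ((1 - 0) / volume.real K) ^ s)) := by
    apply Tendsto.const_mul
    refine tendsto_finsetSum _ fun i _ => ?_
    apply Tendsto.mul
    · have : ContinuousAt (fun e : ℝ => ((i : ℝ) + 1 / 2 + e) ^ (-s)) 0 := by
        apply ContinuousAt.rpow_const
        · fun_prop
        · left; positivity
      exact this
    · have : ContinuousAt (fun e : ℝ => ((1 - e) / volume.real K) ^ s) 0 := by
        apply ContinuousAt.rpow_const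
        · fun_prop
        · right; exact hs0.le
      exact this
  have h3 : 2 * ∑ i ∈ Finset.range m, ((i : ℝ) + 1 / 2 + 0) ^ (-s) *
      ((1 - 0) / volume.real K) ^ s = 2 * (∑ i ∈ Finset.range m, ((i : ℝ) + 1 / 2) ^ (-s)) *
      (volume.real K) ^ (-s) := by
    rw [mul_assoc, Finset.sum_mul]
    congr 1
    refine Finset.sum_congr rfl fun i _ => ?_
    rw [add_zero, sub_zero, one_div (volume.real K), Real.inv_rpow hpos.le, Real.rpow_neg hpos.le]
  rw [h3] at h2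
  have h4 : ∀ᶠ e : ℝ in 𝓝[>] 0, b < 2 * ∑ i ∈ Finset.range m, ((i : ℝ) + 1 / 2 + e) ^ (-s) *
      ((1 - e) / volume.real K) ^ s :=
    (h2.mono_left nhdsWithin_le_nhds).eventually (lt_mem_nhds hm)
  have h5 : ∀ᶠ e : ℝ in 𝓝[>] 0, e ∈ Ioc (0 : ℝ) (1 / 2) := Ioc_mem_nhdsGT (by norm_num)
  obtain ⟨e, he1, he2⟩ := (h4.and h5).exists
  exact ⟨m, e, he2.1, he2.2, he1⟩

/-- **The limit of the normalised polarization constants.** -/
theorem limit (h01 : K ⊆ Icc (0 : ℝ) 1) (hpos : 0 < volume.real K) {s : ℝ} (hs : 1 < s) :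
    Tendsto (fun N : ℕ =>
      (⨆ (x : Fin N → ℝ) (_ : ∀ i, x i ∈ K), ⨅ y ∈ K, ∑ j, (ENNReal.ofReal |y - x j|) ^ (-s)) /
        ((N : ℝ≥0∞) ^ s)) atTop (𝓝 (ENNReal.ofReal (2 * Zs s * (volume.real K) ^ (-s)))) := by
  have hs0 : 0 < s := by linarith
  have hNs : ∀ N : ℕ, 0 < N → ((N : ℝ≥0∞) ^ s) = ENNReal.ofReal ((N : ℝ) ^ s) := by
    intro N hN
    rw [← ENNReal.ofReal_rpow_of_pos (by exact_mod_cast hN), ENNReal.ofReal_natCast]
  rw [tendsto_order]
  constructor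
  · intro b hb
    have hbt : b ≠ ⊤ := ne_top_of_lt hb
    obtain ⟨b', hb', rfl⟩ : ∃ b' : ℝ, 0 ≤ b' ∧ b = ENNReal.ofReal b' :=
      ⟨b.toReal, ENNReal.toReal_nonneg, (ENNReal.ofReal_toReal hbt).symm⟩
    have hlt : b' < 2 * Zs s * (volume.real K) ^ (-s) :=
      (ENNReal.ofReal_lt_ofReal_iff_of_nonneg hb').1 hb
    obtain ⟨m, e, he0, he1, hpar⟩ := exists_par hK hpos hs hlt
    obtain ⟨θ, hθ⟩ : ∃ θ : ℝ, θ = (b' + 1) ^ (-(1 / s)) := ⟨_, rfl⟩
    have hθ0 : 0 < θ := by rw [hθ]; positivity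
    have hθs : θ ^ (-s) = b' + 1 := by
      rw [hθ, ← Real.rpow_mul (by linarith)]
      have : -(1 / s) * -s = 1 := by field_simp
      rw [this, Real.rpow_one]
    have hl := lower hK h01 hpos hs m (w := e) (e := e) (θ := θ) he0 he1 he0 (by linarith) hθ0
    filter_upwards [hl, eventually_ge_atTop 1] with N hN hN1
    obtain ⟨x, hxK, hx⟩ := hN
    have hN' : (0 : ℝ) < N := by exact_mod_cast hN1
    obtain ⟨c, hc⟩ : ∃ c, c = min (2 * ∑ i ∈ Finset.range m, ((i : ℝ) + 1 / 2 + e) ^ (-s) *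
        ((1 - e) / volume.real K) ^ s) (θ ^ (-s)) := ⟨_, rfl⟩
    rw [← hc] at hx
    have hbc : b' < c := by
      rw [hc, lt_min_iff]
      exact ⟨hpar, by rw [hθs]; linarith⟩
    have h1 : ENNReal.ofReal (c * (N : ℝ) ^ s) ≤
        ⨆ (x : Fin N → ℝ) (_ : ∀ i, x i ∈ K), ⨅ y ∈ K, ∑ j, (ENNReal.ofReal |y - x j|) ^ (-s) :=
      le_iSup₂_of_le x hxK (le_iInf₂ hx)
    have h2 : ENNReal.ofReal c ≤ (⨆ (x : Fin N → ℝ) (_ : ∀ i, x i ∈ K), ⨅ y ∈ K,
        ∑ j, (ENNReal.ofReal |y - x j|) ^ (-s)) / ((N : ℝ≥0∞) ^ s) := by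
      rw [hNs N hN1, ENNReal.le_div_iff_mul_le]
      · refine le_trans (le_of_eq ?_) h1
        rw [ENNReal.ofReal_mul (by linarith)]
      · left
        exact (ENNReal.ofReal_pos.2 (Real.rpow_pos_of_pos hN' _)).ne'
      · left
        exact ENNReal.ofReal_ne_top
    refine lt_of_lt_of_le ?_ h2
    exact (ENNReal.ofReal_lt_ofReal_iff (by linarith)).2 hbc
  · intro b hb
    filter_upwards [eventually_ge_atTop 1] with N hN1
    refine lt_of_le_of_lt ?_ hb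
    have hN' : (0 : ℝ) < N := by exact_mod_cast hN1
    rw [hNs N hN1, ENNReal.div_le_iff]
    · refine (pol_le hK hpos hs hN1).trans (le_of_eq ?_)
      rw [ENNReal.ofReal_mul]
      have : 0 ≤ Zs s := tsum_nonneg fun i => Real.rpow_nonneg (by positivity) _
      positivity
    · exact (ENNReal.ofReal_pos.2 (Real.rpow_pos_of_pos hN' _)).ne'
    · exact ENNReal.ofReal_ne_top

end

/-- the constant `Zs s = ∑ (i + 1/2)^(-s)` is `(2 ^ s - 1) ζ(s)` -/
theorem Zs_eq {s : ℝ} (hs : 1 < s) : Zs s = (2 ^ s - 1) * (riemannZeta s).re := by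
  have hz : (riemannZeta s) = ((∑' n : ℕ, 1 / (n : ℝ) ^ s : ℝ) : ℂ) := by
    rw [zeta_eq_tsum_one_div_nat_cpow (by simpa using hs), Complex.ofReal_tsum]
    refine tsum_congr fun n => ?_
    push_cast
    rw [Complex.ofReal_cpow (by positivity)]
    push_cast
    rfl
  rw [hz, Complex.ofReal_re]
  have hs0 : 0 < s := by linarith
  have hsum : Summable fun n : ℕ => 1 / (n : ℝ) ^ s := Real.summable_one_div_nat_rpow.2 hs
  have he : Summable fun n : ℕ => 1 / ((2 * n : ℕ) : ℝ) ^ s :=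
    hsum.comp_injective (mul_right_injective₀ (two_ne_zero' ℕ))
  have ho : Summable fun n : ℕ => 1 / ((2 * n + 1 : ℕ) : ℝ) ^ s :=
    hsum.comp_injective fun a b h => by simpa using h
  have h1 := tsum_even_add_odd (f := fun n : ℕ => 1 / (n : ℝ) ^ s) he ho
  have h2 : ∑' n : ℕ, 1 / ((2 * n : ℕ) : ℝ) ^ s = (2 ^ s)⁻¹ * ∑' n : ℕ, 1 / (n : ℝ) ^ s := by
    rw [← tsum_mul_left]
    refine tsum_congr fun n => ?_
    push_cast
    rw [Real.mul_rpow (by norm_num) (by positivity)]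
    rw [one_div, mul_inv, one_div]
  have h3 : ∑' n : ℕ, 1 / ((2 * n + 1 : ℕ) : ℝ) ^ s = (2 ^ s)⁻¹ * Zs s := by
    rw [Zs, ← tsum_mul_left]
    refine tsum_congr fun n => ?_
    have h4 : ((2 * n + 1 : ℕ) : ℝ) = 2 * ((n : ℝ) + 1 / 2) := by push_cast; ring
    rw [h4, Real.mul_rpow (by norm_num) (by positivity), Real.rpow_neg (by positivity)]
    rw [one_div, mul_inv]
  have h5 : (2 : ℝ) ^ s ≠ 0 := (Real.rpow_pos_of_pos two_pos _).ne'
  rw [h2, h3] at h1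
  field_simp at h1
  linarith

end Pool.Agent.P8H77.FC
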