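import Mathlib

/-! # Upper bound for the polarization of points of the line -/

set_option autoImplicit false
open Finset

namespace Pool.Agent.P8H77.FC

/-- tangent inequality for `u ^ (-s)` -/
theorem tangent {s u v : ℝ} (hs : 0 < s) (hu : 0 < u) (hv : 0 < v) :
    u ^ (-s) - s * u ^ (-s - 1) * (v - u) ≤ v ^ (-s) := by
  have h1 : v = u * (v / u) := by field_simp
  have hr : 0 < v / u := div_pos hv hu
  have h2 : 1 - s * (v / u - 1) ≤ (v / u) ^ (-s) := by
    rw [Real.rpow_def_of_pos hr]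
    have h3 := Real.add_one_le_exp (Real.log (v / u) * -s)
    have h4 := Real.log_le_sub_one_of_pos hr
    nlinarith
  have h5 : v ^ (-s) = u ^ (-s) * (v / u) ^ (-s) := by
    rw [← Real.mul_rpow hu.le hr.le, ← h1]
  have h6 : u ^ (-s - 1) = u ^ (-s) / u := by
    rw [Real.rpow_sub hu, Real.rpow_one]
  rw [h5, h6]
  have h7 : 0 < u ^ (-s) := Real.rpow_pos_of_pos hu _
  have h8 : u ^ (-s) - s * (u ^ (-s) / u) * (v - u) = u ^ (-s) * (1 - s * (v / u - 1)) := by
    field_simp
  rw [h8]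
  exact mul_le_mul_of_nonneg_left h2 h7.le

theorem midconv {s a b : ℝ} (hs : 0 < s) (ha : 0 < a) (hb : 0 < b) :
    2 * ((a + b) / 2) ^ (-s) ≤ a ^ (-s) + b ^ (-s) := by
  have hm : 0 < (a + b) / 2 := by positivity
  have h1 := tangent hs hm ha
  have h2 := tangent hs hm hb
  nlinarith

theorem anti {s a b : ℝ} (hs : 0 < s) (ha : 0 < a) (hab : a ≤ b) : b ^ (-s) ≤ a ^ (-s) :=
  Real.rpow_le_rpow_of_nonpos ha hab (by linarith)

/-- summation by parts -/
theorem sbp {s : ℝ} (hs : 0 < s) (u u' d : ℕ → ℝ) (m : ℕ) (d0 : d 0 = 0)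
    (hd : ∀ i, i ≤ m → 0 ≤ d i) (hu' : ∀ i, i < m → 0 < u' i)
    (hmono : ∀ i j, i ≤ j → j < m → u i ≤ u j)
    (hrel : ∀ i, i < m → u i = u' i + d (i + 1) - d i) :
    ∑ i ∈ range m, u i ^ (-s) ≤ ∑ i ∈ range m, u' i ^ (-s) := by
  have hpos : ∀ i, i < m → 0 < u i := by
    intro i hi
    have h0 : 0 < m := by omega
    have h1 := hrel 0 h0
    have h2 := hu' 0 h0
    have h3 := hd 1 h0
    have h4 := hmono 0 i (Nat.zero_le _) hi
    rw [d0] at h1
    simp only [zero_add] at h1
    linarith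
  have key : ∀ k, k ≤ m → ∀ w : ℝ, 0 ≤ w → (∀ i, i < k → w ≤ s * u i ^ (-s - 1)) →
      d k * w ≤ ∑ i ∈ range k, u' i ^ (-s) - ∑ i ∈ range k, u i ^ (-s) := by
    intro k
    induction k with
    | zero => intro _ w _ _; simp [d0]
    | succ k ih =>
      intro hk w hw hwi
      have hkm : k < m := by omega
      have h1 := ih (by omega) (s * u k ^ (-s - 1))
        (mul_nonneg hs.le (Real.rpow_nonneg (hpos k hkm).le _)) (fun i hi => by
          apply mul_le_mul_of_nonneg_left _ hs.le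
          exact Real.rpow_le_rpow_of_nonpos (hpos i (by omega)) (hmono i k hi.le hkm) (by linarith))
      have h2 := tangent hs (hpos k hkm) (hu' k hkm)
      have h3 := hrel k hkm
      have h4 := hwi k (Nat.lt_succ_self k)
      have h5 := hd (k + 1) hk
      rw [sum_range_succ, sum_range_succ]
      have h6 : d (k + 1) * w ≤ d (k + 1) * (s * u k ^ (-s - 1)) :=
        mul_le_mul_of_nonneg_left h4 h5
      have h7 : u' k - u k = d k - d (k + 1) := by linarith
      rw [h7] at h2
      nlinarith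
  have := key m le_rfl 0 le_rfl (fun i hi =>
    mul_nonneg hs.le (Real.rpow_nonneg (hpos i hi).le _))
  linarith

/-- the sum of `(i + 1/2) ^ (-s)` -/
noncomputable def Zs (s : ℝ) : ℝ := ∑' i : ℕ, ((i : ℝ) + 1 / 2) ^ (-s)

theorem summable_Zs {s : ℝ} (hs : 1 < s) : Summable fun i : ℕ => ((i : ℝ) + 1 / 2) ^ (-s) := by
  have h1 : Summable fun i : ℕ => (2 : ℝ) ^ s * (1 / ((i + 1 : ℕ) : ℝ) ^ s) := by
    apply Summable.mul_left
    exact (summable_nat_add_iff 1).2 (Real.summable_one_div_nat_rpow.2 hs)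
  refine Summable.of_nonneg_of_le (fun i => Real.rpow_nonneg (by positivity) _) (fun i => ?_) h1
  have h2 : (0 : ℝ) < ((i + 1 : ℕ) : ℝ) / 2 := by positivity
  have h3 : ((i + 1 : ℕ) : ℝ) / 2 ≤ (i : ℝ) + 1 / 2 := by
    push_cast
    have : (0 : ℝ) ≤ i := Nat.cast_nonneg i
    linarith
  have h4 := anti (s := s) (by linarith) h2 h3
  refine h4.trans (le_of_eq ?_)
  rw [Real.rpow_neg h2.le, Real.div_rpow (by positivity) (by norm_num)]
  field_simp

theorem sum_le_Zs {s : ℝ} (hs : 1 < s) (a : ℝ) (ha : 0 < a) (m : ℕ) :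
    ∑ i ∈ range m, (((i : ℝ) + 1 / 2) * a) ^ (-s) ≤ a ^ (-s) * Zs s := by
  have h1 : ∑ i ∈ range m, (((i : ℝ) + 1 / 2) * a) ^ (-s) =
      a ^ (-s) * ∑ i ∈ range m, ((i : ℝ) + 1 / 2) ^ (-s) := by
    rw [mul_sum]
    refine sum_congr rfl fun i _ => ?_
    rw [Real.mul_rpow (by positivity) ha.le, mul_comm]
  rw [h1]
  apply mul_le_mul_of_nonneg_left _ (Real.rpow_nonneg ha.le _)
  exact (summable_Zs hs).sum_le_tsum _ (fun i _ => Real.rpow_nonneg (by positivity) _)

/-- **Upper bound.** For sorted points `p 0 ≤ ... ≤ p (n - 1)` of the line and a spacing `a > 0`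
some multiple `k a`, `k ≤ n`, has distance at least `a / 2` from all of them, and potential at
most `2 a ^ (-s) Zs s`. -/
theorem upper_sorted {s : ℝ} (hs : 1 < s) (n : ℕ) (a : ℝ) (ha : 0 < a) (p : ℕ → ℝ)
    (hp : ∀ i j, i ≤ j → j < n → p i ≤ p j) :
    ∃ k, k ≤ n ∧ (∀ j, j < n → p j ≠ k * a) ∧
      ∑ j ∈ range n, |(k : ℝ) * a - p j| ^ (-s) ≤ 2 * (a ^ (-s) * Zs s) := by
  have hs0 : 0 < s := by linarith
  obtain ⟨D, hD⟩ : ∃ D : ℕ → ℝ, D = fun k => ∑ i ∈ range k, (p i - ((i : ℝ) + 1 / 2) * a) :=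
    ⟨_, rfl⟩
  obtain ⟨k, hk, hmin⟩ := exists_min_image (range (n + 1)) D ⟨0, by simp⟩
  have hkn : k ≤ n := by rw [mem_range] at hk; omega
  have hDs : ∀ i, D (i + 1) = D i + (p i - ((i : ℝ) + 1 / 2) * a) := by
    intro i; rw [hD]; simp only [sum_range_succ]
  have hmin' : ∀ i, i ≤ n → D k ≤ D i := fun i hi => hmin i (by rw [mem_range]; omega)
  -- right side
  obtain ⟨u, hu⟩ : ∃ u : ℕ → ℝ, u = fun i => p (k + i) - k * a := ⟨_, rfl⟩
  obtain ⟨v, hv⟩ : ∃ v : ℕ → ℝ, v = fun i => k * a - p (k - 1 - i) := ⟨_, rfl⟩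
  have hR : ∀ i, i < n - k → u i = ((i : ℝ) + 1 / 2) * a + (D (k + (i + 1)) - D k) -
      (D (k + i) - D k) := by
    intro i hi
    rw [hu, ← add_assoc, hDs (k + i)]
    push_cast
    ring
  have hL : ∀ i, i < k → v i = ((i : ℝ) + 1 / 2) * a + (D (k - (i + 1)) - D k) -
      (D (k - i) - D k) := by
    intro i hi
    have e1 : k - i = (k - (i + 1)) + 1 := by omega
    have e2 : k - 1 - i = k - (i + 1) := by omega
    rw [hv, e1, hDs (k - (i + 1))]
    beta_reduce
    rw [e2]
    have e3 : ((k - (i + 1) : ℕ) : ℝ) = (k : ℝ) - (i + 1) := by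
      rw [Nat.cast_sub (by omega)]; push_cast; ring
    rw [e3]
    ring
  have hup : ∀ i, i < n - k → a / 2 ≤ u i := by
    intro i hi
    have h1 := hR 0 (by omega)
    have h2 := hmin' (k + 1) (by omega)
    have h3 : u 0 ≤ u i := by
      rw [hu]; have := hp (k + 0) (k + i) (by omega) (by omega)
      beta_reduce; linarith
    simp only [Nat.cast_zero, zero_add, add_zero] at h1
    linarith
  have hvp : ∀ i, i < k → a / 2 ≤ v i := by
    intro i hi
    have h1 := hL 0 (by omega)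
    have h2 := hmin' (k - 1) (by omega)
    have h3 : v 0 ≤ v i := by
      rw [hv]; have := hp (k - 1 - i) (k - 1 - 0) (by omega) (by omega)
      beta_reduce; linarith
    simp only [Nat.cast_zero, zero_add, Nat.sub_zero] at h1
    linarith
  have S1 : ∑ i ∈ range (n - k), u i ^ (-s) ≤ ∑ i ∈ range (n - k), (((i : ℝ) + 1 / 2) * a) ^ (-s) := by
    refine sbp hs0 u _ (fun i => D (k + i) - D k) (n - k) (by simp) (fun i hi => ?_)
      (fun i _ => by positivity) (fun i j hij hj => ?_) (fun i hi => hR i hi)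
    · have := hmin' (k + i) (by omega); linarith
    · rw [hu]; have := hp (k + i) (k + j) (by omega) (by omega)
      beta_reduce; linarith
  have S2 : ∑ i ∈ range k, v i ^ (-s) ≤ ∑ i ∈ range k, (((i : ℝ) + 1 / 2) * a) ^ (-s) := by
    refine sbp hs0 v _ (fun i => D (k - i) - D k) k (by simp) (fun i hi => ?_)
      (fun i _ => by positivity) (fun i j hij hj => ?_) (fun i hi => hL i hi)
    · have := hmin' (k - i) (by omega); linarith
    · rw [hv]; have := hp (k - 1 - j) (k - 1 - i) (by omega) (by omega)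
      beta_reduce; linarith
  have T1 := sum_le_Zs hs a ha (n - k)
  have T2 := sum_le_Zs hs a ha k
  refine ⟨k, hkn, fun j hj => ?_, ?_⟩
  · rcases lt_or_ge j k with h | h
    · have := hvp (k - 1 - j) (by omega)
      rw [hv] at this
      have e : k - 1 - (k - 1 - j) = j := by omega
      beta_reduce at this
      rw [e] at this
      intro h2; rw [h2] at this; linarith
    · have := hup (j - k) (by omega)
      rw [hu] at this
      have e : k + (j - k) = j := by omega
      beta_reduce at this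
      rw [e] at this
      intro h2; rw [h2] at this; linarith
  · have hn : n = k + (n - k) := by omega
    have e1 : ∑ j ∈ range n, |(k : ℝ) * a - p j| ^ (-s) =
        ∑ j ∈ range k, |(k : ℝ) * a - p j| ^ (-s) +
          ∑ i ∈ range (n - k), |(k : ℝ) * a - p (k + i)| ^ (-s) := by
      conv_lhs => rw [hn]
      rw [sum_range_add]
    have e2 : ∑ j ∈ range k, |(k : ℝ) * a - p j| ^ (-s) = ∑ i ∈ range k, v i ^ (-s) := by
      rw [← sum_range_reflect]
      refine sum_congr rfl fun i hi => ?_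
      rw [mem_range] at hi
      have := hvp i hi
      rw [hv] at this ⊢
      beta_reduce at this ⊢
      rw [abs_of_pos (by linarith)]
    have e3 : ∑ i ∈ range (n - k), |(k : ℝ) * a - p (k + i)| ^ (-s) =
        ∑ i ∈ range (n - k), u i ^ (-s) := by
      refine sum_congr rfl fun i hi => ?_
      rw [mem_range] at hi
      have := hup i hi
      rw [hu] at this ⊢
      beta_reduce at this ⊢
      rw [abs_of_neg (by linarith)]
      congr 1; ring
    rw [e1, e2, e3]
    linarith

end Pool.Agent.P8H77.FC
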